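import Mathlib
import Pool.Agent.W46.MZ.Dim
import Pool.Agent.W687.MZ.DROP
import Pool.Agent.W804.MZ.BND

/-!
# Asymptotic directness implies directness

The sum of the weight graded spaces of multiple zeta values is direct if and only if the quotient
of `dim (Z 0 + ... + Z p)` by `dim Z 0 + ... + dim Z p` tends to `1`.  Locally: if this quotient is
at least `1 - 3 ^ (-P)` for all large `p`, then `Z 0 + ... + Z P` is direct.
-/

set_option autoImplicit false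

namespace Pool.Agent.Results.MP_4d52ff_nt.AsymptoticDimension

open Finset Filter Topology

/-- The `ℚ`-span of the multiple zeta values of weight `n` (weight `0` gives `ℚ`). -/
noncomputable def Z (n : ℕ) : Submodule ℚ ℝ :=
  Submodule.span ℚ
    {x : ℝ | ∃ t : ℕ, ∃ k : Fin t → ℕ,
      (∀ i, 1 ≤ k i) ∧ (∀ h : 0 < t, 2 ≤ k ⟨0, h⟩) ∧ (∑ i, k i) = n ∧
      x = ∑' m : {m : Fin t → ℕ // StrictAnti m ∧ ∀ i, 1 ≤ m i},
            ∏ i, (((m.1 i : ℕ) : ℝ) ^ (k i))⁻¹}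

/-- The dimension of `Z 0 + ... + Z p`. -/
noncomputable def dimSum (p : ℕ) : ℕ := Module.finrank ℚ (⨆ j ∈ range (p + 1), Z j : Submodule ℚ ℝ)

/-- The sum of the dimensions of `Z 0, ..., Z p`. -/
noncomputable def sumDim (p : ℕ) : ℕ := ∑ j ∈ range (p + 1), Module.finrank ℚ (Z j)

/-- The problem (the frozen statement `S16873`) for one `p`. -/
def DirectUpTo (p : ℕ) : Prop :=
  ∀ z : ℕ → ℝ,
      (∀ j ≤ p, z j ∈ Submodule.span ℚ
        {x : ℝ | ∃ t : ℕ, ∃ k : Fin t → ℕ,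
          (∀ i, 1 ≤ k i) ∧ (∀ h : 0 < t, 2 ≤ k ⟨0, h⟩) ∧ (∑ i, k i) = j ∧
          x = ∑' n : {n : Fin t → ℕ // StrictAnti n ∧ ∀ i, 1 ≤ n i},
                ∏ i, (((n.1 i : ℕ) : ℝ) ^ (k i))⁻¹}) →
      (∑ j ∈ Finset.range (p + 1), z j) = 0 →
      ∀ j ≤ p, z j = 0

theorem upTo_iff (p : ℕ) : DirectUpTo p ↔ Pool.Agent.W46.MZ.Direct (range (p + 1)) := by
  constructor
  · intro h z hz hs j hj
    refine h z (fun i hi => hz i ?_) hs j ?_
    · rw [mem_range]; omega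
    · rw [mem_range] at hj; omega
  · intro h z hz hs j hj
    refine h z (fun i hi => hz i ?_) hs j ?_
    · rw [mem_range] at hi; omega
    · rw [mem_range]; omega

theorem Q1_iff : (∀ p, DirectUpTo p) ↔ Pool.Agent.W46.MZ.Q1 :=
  forall_congr' upTo_iff

/-- Main theorem. -/
theorem result :
    (∀ n : ℕ, Module.Finite ℚ (Z n)) ∧
    (∀ P p : ℕ, P ≤ p → ¬ DirectUpTo P → dimSum p + sumDim (p - P) ≤ sumDim p) ∧
    (∀ P : ℕ,
      (∃ p₀ : ℕ, ∀ p, p₀ ≤ p → (1 - 1 / (3 : ℝ) ^ P) * (sumDim p : ℝ) ≤ (dimSum p : ℝ)) →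
        DirectUpTo P) ∧
    ((∀ p, DirectUpTo p) ↔
      Tendsto (fun p : ℕ => (dimSum p : ℝ) / (sumDim p : ℝ)) atTop (𝓝 1)) := by
  refine ⟨Pool.Agent.W804.MZ.BND.1, fun P p hp h => ?_, fun P h => ?_, ?_⟩
  · rw [upTo_iff] at h
    exact Pool.Agent.W687.MZ.DROP Pool.Agent.W804.MZ.BND.1 P h p hp
  · rw [upTo_iff]
    exact Pool.Agent.W46.MZ.direct_of_dim Pool.Agent.W804.MZ.BND Pool.Agent.W687.MZ.DROP P h
  · rw [Q1_iff]
    exact Pool.Agent.W46.MZ.Q1_iff_dim Pool.Agent.W804.MZ.BND Pool.Agent.W687.MZ.DROP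

end Pool.Agent.Results.MP_4d52ff_nt.AsymptoticDimension
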