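import Mathlib
import Pool.Agent.W46.MZ.Trans

/-!
# Directness and the transcendence of `π` over the quotients of equal weight

The quotients of two elements of equal weight form a subfield `K` of `ℝ`.  The sum of the weight
graded spaces of multiple zeta values is direct if and only if `π` (or any nonzero element of
positive weight) is transcendental over `K`; if the sum `Z 0 + ... + Z p` is not direct, then every
element of every `Z w` is algebraic over `K`, of degree at most `p`.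
-/

set_option autoImplicit false

namespace Pool.Agent.Results.MP_4d52ff_nt.PiOverEqualWeight

open Finset Polynomial

/-- The `ℚ`-span of the multiple zeta values of weight `n` (weight `0` gives `ℚ`). -/
noncomputable def Z (n : ℕ) : Submodule ℚ ℝ :=
  Submodule.span ℚ
    {x : ℝ | ∃ t : ℕ, ∃ k : Fin t → ℕ,
      (∀ i, 1 ≤ k i) ∧ (∀ h : 0 < t, 2 ≤ k ⟨0, h⟩) ∧ (∑ i, k i) = n ∧
      x = ∑' m : {m : Fin t → ℕ // StrictAnti m ∧ ∀ i, 1 ≤ m i},
            ∏ i, (((m.1 i : ℕ) : ℝ) ^ (k i))⁻¹}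

/-- The problem (the frozen statement `S16873`) for one `p`. -/
def DirectUpTo (p : ℕ) : Prop :=
  ∀ z : ℕ → ℝ,
      (∀ j ≤ p, z j ∈ Submodule.span ℚ
        {x : ℝ | ∃ t : ℕ, ∃ k : Fin t → ℕ,
          (∀ i, 1 ≤ k i) ∧ (∀ h : 0 < t, 2 ≤ k ⟨0, h⟩) ∧ (∑ i, k i) = j ∧
          x = ∑' n : {n : Fin t → ℕ // StrictAnti n ∧ ∀ i, 1 ≤ n i},
                ∏ i, (((n.1 i : ℕ) : ℝ) ^ (k i))⁻¹}) →
      (∑ j ∈ Finset.range (p + 1), z j) = 0 →
      ∀ j ≤ p, z j = 0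

theorem upTo_iff (p : ℕ) : DirectUpTo p ↔ Pool.Agent.W46.MZ.Direct (range (p + 1)) := by
  constructor
  · intro h z hz hs j hj
    refine h z (fun i hi => hz i ?_) hs j ?_
    · rw [mem_range]; omega
    · rw [mem_range] at hj; omega
  · intro h z hz hs j hj
    refine h z (fun i hi => hz i ?_) hs j ?_
    · rw [mem_range] at hi; omega
    · rw [mem_range]; omega

theorem Q1_iff : (∀ p, DirectUpTo p) ↔ Pool.Agent.W46.MZ.Q1 :=
  forall_congr' upTo_iff

/-- Main theorem. -/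
theorem result :
    ∃ K : Subfield ℝ,
      (∀ x : ℝ, x ∈ K ↔ ∃ n : ℕ, ∃ a ∈ Z n, ∃ b ∈ Z n, b ≠ 0 ∧ x = a / b) ∧
      ((∀ p, DirectUpTo p) ↔ Transcendental K Real.pi) ∧
      (∀ w : ℕ, 1 ≤ w → ∀ z ∈ Z w, z ≠ 0 → ((∀ p, DirectUpTo p) ↔ Transcendental K z)) ∧
      (∀ p : ℕ, ¬ DirectUpTo p → ∀ w : ℕ, ∀ z ∈ Z w,
        ∃ P : K[X], P ≠ 0 ∧ P.natDegree ≤ p ∧ aeval z P = 0) := by
  refine ⟨Pool.Agent.W46.MZ.KF, fun x => Iff.rfl, ?_, ?_, ?_⟩
  · rw [Q1_iff]
    exact Pool.Agent.W46.MZ.Q1_iff_pi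
  · intro w hw z hz hz0
    rw [Q1_iff]
    exact Pool.Agent.W46.MZ.Q1_iff_trans w hw z hz hz0
  · intro p hp w z hz
    rw [upTo_iff] at hp
    exact Pool.Agent.W46.MZ.alg_all p hp w z hz

end Pool.Agent.Results.MP_4d52ff_nt.PiOverEqualWeight
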