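import Mathlib
import Pool.Agent.W46.MZ.Pat
import Pool.Agent.W46.MZ.Ver
import Pool.Agent.W398.MZ.DENS

/-!
# It suffices to prove directness for a set of weights of positive density

`Z n` is the space spanned by the multiple zeta values of weight `n`.  If the sum
`Z 0 + ... + Z p` is not direct, then the sum over the weights `0, m, ..., p m` is not direct for
every `m`, and for every `L`, from some point on, the sum over any `p + 1` weights in a window of
length `L` is not direct.  So directness of the sum over a set `S` of weights of positive upper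
Banach density (or over an arithmetic progression) implies directness of the whole sum.
-/

set_option autoImplicit false

namespace Pool.Agent.Results.MP_4d52ff_nt.PositiveDensityWeights

open Finset

/-- The `ℚ`-span of the multiple zeta values of weight `n` (weight `0` gives `ℚ`). -/
noncomputable def Z (n : ℕ) : Submodule ℚ ℝ :=
  Submodule.span ℚ
    {x : ℝ | ∃ t : ℕ, ∃ k : Fin t → ℕ,
      (∀ i, 1 ≤ k i) ∧ (∀ h : 0 < t, 2 ≤ k ⟨0, h⟩) ∧ (∑ i, k i) = n ∧
      x = ∑' m : {m : Fin t → ℕ // StrictAnti m ∧ ∀ i, 1 ≤ m i},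
            ∏ i, (((m.1 i : ℕ) : ℝ) ^ (k i))⁻¹}

/-- The sum of the spaces `Z j`, `j ∈ T`, is direct. -/
def DirectOn (T : Finset ℕ) : Prop :=
  ∀ z : ℕ → ℝ, (∀ j ∈ T, z j ∈ Z j) → ∑ j ∈ T, z j = 0 → ∀ j ∈ T, z j = 0

/-- The problem (the frozen statement `S16873`). -/
def Q1 : Prop :=
  ∀ p : ℕ, ∀ z : ℕ → ℝ,
      (∀ j ≤ p, z j ∈ Submodule.span ℚ
        {x : ℝ | ∃ t : ℕ, ∃ k : Fin t → ℕ,
          (∀ i, 1 ≤ k i) ∧ (∀ h : 0 < t, 2 ≤ k ⟨0, h⟩) ∧ (∑ i, k i) = j ∧
          x = ∑' n : {n : Fin t → ℕ // StrictAnti n ∧ ∀ i, 1 ≤ n i},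
                ∏ i, (((n.1 i : ℕ) : ℝ) ^ (k i))⁻¹}) →
      (∑ j ∈ Finset.range (p + 1), z j) = 0 →
      ∀ j ≤ p, z j = 0

/-- For every `n` there is a length `L` such that arbitrarily far out some window of length `L`
contains `n` elements of `S`. -/
def Clustered (S : Set ℕ) : Prop :=
  ∀ n : ℕ, ∃ L : ℕ, ∀ x₀ : ℕ, ∃ x, x₀ ≤ x ∧ ∃ T : Finset ℕ, T ⊆ Icc x (x + L) ∧
    (T : Set ℕ) ⊆ S ∧ T.card = n

/-- `S` has positive upper Banach density: for some `k`, arbitrarily far out there are arbitrarily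
long windows in which at least the proportion `1 / k` of the numbers lies in `S`. -/
def PositiveDensity (S : Set ℕ) : Prop :=
  ∃ k : ℕ, 1 ≤ k ∧ ∀ M x₀ : ℕ, ∃ x, x₀ ≤ x ∧ ∃ N, M ≤ N ∧
    ∃ T : Finset ℕ, T ⊆ Icc x (x + N) ∧ (T : Set ℕ) ⊆ S ∧ N ≤ k * T.card

theorem Q1_iff : Q1 ↔ Pool.Agent.W46.MZ.Q1 := by
  constructor
  · intro h p z hz hs j hj
    refine h p z (fun i hi => hz i ?_) hs j ?_
    · rw [mem_range]; omega
    · rw [mem_range] at hj; omega
  · intro h p z hz hs j hj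
    refine h p z (fun i hi => hz i ?_) hs j ?_
    · rw [mem_range] at hi; omega
    · rw [mem_range]; omega

/-- Main theorem. -/
theorem result :
    (∀ p : ℕ, ¬ DirectOn (range (p + 1)) →
      (∀ m : ℕ, 1 ≤ m → ¬ DirectOn ((range (p + 1)).image fun i => m * i)) ∧
      (∀ L : ℕ, ∃ x₀ : ℕ, ∀ x, x₀ ≤ x → ∀ T : Finset ℕ, T ⊆ Icc x (x + L) → T.card = p + 1 →
        ¬ DirectOn T)) ∧
    (∀ S : Set ℕ, Clustered S → ((∀ T : Finset ℕ, (T : Set ℕ) ⊆ S → DirectOn T) ↔ Q1)) ∧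
    (∀ S : Set ℕ, PositiveDensity S → Clustered S) ∧
    (∀ a m : ℕ, 1 ≤ m → Clustered {x | ∃ i : ℕ, x = a + m * i}) := by
  refine ⟨fun p hp => ⟨fun m hm => Pool.Agent.W46.MZ.veronese p hp m hm,
    Pool.Agent.W46.MZ.window p hp⟩, fun S hS => ?_, Pool.Agent.W398.MZ.DENS,
    Pool.Agent.W46.MZ.clustered_ap⟩
  rw [Q1_iff]
  exact Pool.Agent.W46.MZ.clustered_iff S hS

end Pool.Agent.Results.MP_4d52ff_nt.PositiveDensityWeights
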